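import Pool.Agent.helper57.LQ.SpecC

/-!
# Project lq (MP_ebc808_nt), row NIL: products of many primes `q = 7 mod 24`
-/

set_option autoImplicit false

open Finset PowerSeries

noncomputable section

namespace Pool.Agent.LQ

theorem NIL_coeff_one (n : ℕ) (f : FF) : coeff 1 (T n f) = coeff n f := by
  rw [coeff_T]
  simp

theorem NIL_notsq (q : ℕ) (hq : q.Prime) (hTGR : TGR_stmt) : coeff q tt = 0 := by
  rw [hTGR.1 q, if_neg]
  rintro ⟨u, -, hu⟩
  have h1 : u ∣ q := by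
    rw [hu]
    exact dvd_pow_self u (by norm_num)
  rcases (Nat.dvd_prime hq).1 h1 with h | h
  · rw [h] at hu
    exact hq.one_lt.ne' (by simpa using hu)
  · have h2 : q * 1 = q * q := by
      rw [mul_one, ← pow_two]
      rw [h] at hu
      exact hu
    have h3 := Nat.eq_of_mul_eq_mul_left hq.pos h2
    exact hq.one_lt.ne h3

theorem NIL_cop {q : ℕ} (hq : q.Prime) (h : q % 24 = 7) : q.Coprime 6 := by
  have h2 : ¬ 2 ∣ q := by omega
  have h3 : ¬ 3 ∣ q := by omega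
  have h2' : q.Coprime 2 := ((Nat.coprime_primes hq Nat.prime_two).2 (by rintro rfl; omega))
  have h3' : q.Coprime 3 := ((Nat.coprime_primes hq Nat.prime_three).2 (by rintro rfl; omega))
  have := Nat.Coprime.mul_right h2' h3'
  simpa using this

theorem NIL_mem {q : ℕ} (hq : q.Coprime 6) : T q ∈ TT 6 :=
  Submodule.subset_span ⟨q, hq, rfl⟩

/-- `T q` strictly lowers the degree. -/
theorem NIL_step (hSTR : STR_stmt) (hTGR : TGR_stmt) {q : ℕ} (hq : q.Prime) (h : q % 24 = 7)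
    (l : ℕ) (f : FF) (hf : f ∈ VV 6 tt l) : T q f ∈ VV 6 tt (l - 1) := by
  have h1 : coeff 1 (T q tt) = 0 := by
    rw [NIL_coeff_one, NIL_notsq q hq hTGR]
  have h2 := hSTR (T q) (NIL_mem (NIL_cop hq h)) h1
  unfold VV at hf
  induction hf using Submodule.span_induction with
  | mem x hx =>
    obtain ⟨i, hi, hi6, rfl⟩ := hx
    exact VV_mono 6 tt (by omega) (h2 i hi6)
  | zero =>
    rw [map_zero]
    exact Submodule.zero_mem _
  | add x y _ _ hx hy =>
    rw [map_add]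
    exact Submodule.add_mem _ hx hy
  | smul a x _ hx =>
    rw [map_smul]
    exact Submodule.smul_mem _ _ hx

theorem NIL_main (hGN6 : GN6_stmt) (hHRC : HRC_stmt) (hAF3 : AF3_stmt)
    (hSTR : STR_stmt) (hTGR : TGR_stmt) (m : ℕ) (hm : m.Coprime 6) (S : Finset ℕ) :
    (∀ q ∈ S, q.Prime ∧ q % 24 = 7 ∧ ¬ q ∣ m) → ∀ (l : ℕ) (f : FF), f ∈ VV 6 tt l →
      T (m * ∏ q ∈ S, q) f ∈ VV 6 tt (l - #S) := by
  classical
  induction S using Finset.induction_on with
  | empty =>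
    intro _ l f hf
    rw [Finset.prod_empty, mul_one, Finset.card_empty, Nat.sub_zero]
    exact hAF3.2 6 tt hGN6 (T m) (NIL_mem hm) l f hf
  | insert q S hqS ih =>
    intro hS l f hf
    have hq := hS q (Finset.mem_insert_self q S)
    have hS' : ∀ q ∈ S, q.Prime ∧ q % 24 = 7 ∧ ¬ q ∣ m := fun q' hq' =>
      hS q' (Finset.mem_insert_of_mem hq')
    have hm0 : 0 < m := by
      rcases Nat.eq_zero_or_pos m with h | h
      · rw [h] at hm
        norm_num at hm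
      · exact h
    have hprod : 0 < ∏ q ∈ S, q := Finset.prod_pos fun q' hq' => (hS' q' hq').1.pos
    have hnd : ¬ q ∣ m * ∏ q ∈ S, q := by
      intro hd
      rcases (hq.1.dvd_mul).1 hd with h | h
      · exact hq.2.2 h
      · obtain ⟨q', hq', hdq⟩ := (Prime.dvd_finsetProd_iff hq.1.prime _).1 h
        have := (Nat.prime_dvd_prime_iff_eq hq.1 (hS' q' hq').1).1 hdq
        rw [this] at hqS
        exact hqS hq'
    have h1 := hHRC q (m * ∏ q ∈ S, q) hq.1 (Nat.mul_pos hm0 hprod)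
    rw [if_neg hnd, add_zero] at h1
    rw [Finset.prod_insert hqS, Finset.card_insert_of_notMem hqS]
    have h2 : m * (q * ∏ q ∈ S, q) = q * (m * ∏ q ∈ S, q) := by ring
    rw [h2, ← h1, Module.End.mul_apply]
    have h3 := NIL_step hSTR hTGR hq.1 hq.2.1 (l - #S) _ (ih hS' l f hf)
    rwa [Nat.sub_sub] at h3

/-- The stronger form of **NIL** with `i ≤ #S`. -/
theorem NIL_le (hGN6 : GN6_stmt) (hHRC : HRC_stmt) (hAF3 : AF3_stmt) (hSTR : STR_stmt)
    (hTGR : TGR_stmt) : ∀ (S : Finset ℕ) (m : ℕ), (∀ q ∈ S, q.Prime ∧ q % 24 = 7 ∧ ¬ q ∣ m) →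
    m.Coprime 6 → ∀ i : ℕ, i ≤ #S → i.Coprime 6 → coeff (m * ∏ q ∈ S, q) (tt ^ i) = 0 := by
  intro S m hS hm i hi hi6
  have h1 : tt ^ i ∈ VV 6 tt (i + 1) :=
    Submodule.subset_span ⟨i, Nat.lt_succ_self i, hi6, rfl⟩
  have h2 := VV_mono 6 tt (show i + 1 - #S ≤ 1 by omega)
    (NIL_main hGN6 hHRC hAF3 hSTR hTGR m hm S hS (i + 1) _ h1)
  have h4 : VV 6 tt 1 = ⊥ := by
    unfold VV
    rw [Submodule.span_eq_bot]
    rintro f ⟨j, hj, hj6, -⟩
    have hj0 : j = 0 := by omega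
    rw [hj0] at hj6
    norm_num at hj6
  rw [h4, Submodule.mem_bot] at h2
  rw [← NIL_coeff_one, h2, map_zero]

/-- **NIL**. -/
theorem NIL (hGN6 : GN6_stmt) (hHRC : HRC_stmt) (hAF3 : AF3_stmt) (hSTR : STR_stmt)
    (hTGR : TGR_stmt) : NIL_stmt := fun S m hS hm i hi hi6 =>
  NIL_le hGN6 hHRC hAF3 hSTR hTGR S m hS hm i hi.le hi6

end Pool.Agent.LQ
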